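import Pool.Agent.Y890.VH.Main

/-!
Points with complex multiplication of bounded height, for arbitrary variations of Hodge structure over open subsets of
affine spaces: those whose multiplications contain an endomorphism of bounded size with distinct eigenvalues are sparse,
and outside few hypersurfaces all conjugates under monodromy of an endomorphism are endomorphisms.
-/

namespace Pool.Agent.Results.MP_2794d1_ag.BoundedEndomorphisms

open Filter Pool.Agent Pool.Agent.Y890.MV Pool.Agent.Y890.VH

/-- Let `U` be a nonempty connected open subset of `ℂ ^ X`, and `F_j`, `j` in a finite set `J`, matrices of analytic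
functions on `U` with rows indexed by `H` and `r j` columns (`f ⟨j, (m, c)⟩` is the entry `(m, c)` of `F_j`; e.g. bases of
the pieces of the Hodge filtration in a flat basis). Assume that the elements of the field generated by `x` and the
entries which are algebraic over `ℂ(x)` are in `ℂ(x)` (`RegularM`), and let `Γ` be a subgroup of `GL_H(ℂ)` such that all
polynomial relations over `ℂ[x]` between the entries of the `F_j` on `U` are relations between the entries of the
matrices `γ F_j`, for all `γ ∈ Γ` (`MonInv`; e.g. the monodromy group). There is `ω → ∞` such that for all large `T`, all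
number fields `K` of degree at most `ω T`, embedded in `ℂ`: the set `ExcEnd` of the points `s` of `U` with coordinates
in `K` of height at most `T`, of norm at most `ω T` and at distance at least `1 / ω T` from the complement of `U`, such
that there is a matrix `M` with entries in the integers of `K`, all conjugates of which are of absolute value at most
`T ^ ω T`, which preserves the column spaces of all `F_j(s)`, but not those of all `γ F_j(s)` for all `γ ∈ Γ`, lies on at
most `T ^ (1 / ω T)` hypersurfaces of degree at most `T ^ (1 / ω T)`; and it has at most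
`T ^ (1 / ω T) * N ^ (|X| - 1)` elements, `N` being the number of elements of `K` of height at most `T`. If `Γ` is
infinite and for every `x ∈ U` only finitely many elements of `Γ` preserve the column spaces of all `F_j(x)`, then
`ExcEnd` contains the set `CMPts` of all such points `s` with such a matrix `M` of this size with distinct eigenvalues
which preserves the column spaces of all `F_j(s)`. -/
theorem result {X H J : Type} [Fintype X] [DecidableEq X] [Nonempty X] [Fintype H] [DecidableEq H] [Fintype J]
    [DecidableEq J] {r : J → ℕ} {U : Set (X → ℂ)} {f : Sg H J r → (X → ℂ) → ℂ}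
    (hU : IsPreconnected U) (hUo : IsOpen U) (hne : U.Nonempty) (hf : ∀ i, AnalyticOnNhd ℂ (f i) U)
    (hreg : RegularM U f) (Γ : Subgroup (GL H ℂ)) (hΓ : ∀ γ ∈ Γ, MonInv U f (γ : Matrix H H ℂ)) :
    ∃ (ω : ℝ → ℕ) (T₀ : ℝ), Tendsto ω atTop atTop ∧ Monotone ω ∧ ∀ T, T₀ ≤ T → 0 < ω T ∧
      ∀ (K : Type) [Field K] [NumberField K], Module.finrank ℚ K ≤ ω T → ∀ io : K →+* ℂ,
        Y124.Cov ⌊T ^ ((ω T : ℝ)⁻¹)⌋₊ ⌊T ^ ((ω T : ℝ)⁻¹)⌋₊
          ((fun (s : X → K) j => io (s j)) '' ExcEnd f (InnerM U (ω T)) K io Γ (ω T : ℝ) T) ∧
        (ExcEnd f (InnerM U (ω T)) K io Γ (ω T : ℝ) T).Finite ∧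
        ((ExcEnd f (InnerM U (ω T)) K io Γ (ω T : ℝ) T).ncard : ℝ) ≤
          T ^ ((ω T : ℝ)⁻¹) * ({x : K | Y120.HtLe K T x}.ncard : ℝ) ^ (Fintype.card X - 1) ∧
        (Infinite Γ → (∀ x ∈ U, (Stab Γ fun y => f y x).Finite) →
          CMPts f (InnerM U (ω T)) K io (ω T : ℝ) T ⊆ ExcEnd f (InnerM U (ω T)) K io Γ (ω T : ℝ) T) :=
  main hU hUo hne hf hreg Γ hΓ

end Pool.Agent.Results.MP_2794d1_ag.BoundedEndomorphisms
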