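import Pool.Agent.Y119.HA.Fin

/-!
# CM points of bounded degree near the large complex structure point of the hypergeometric variations of Hodge structure

Let `m ≥ 2`, let `β_1, …, β_m` be rational numbers in `(0, 1)` and `θ = z d/dz`. The hypergeometric operator
`θ^(2m) - z ∏_j (θ + β_j) (θ + 1 - β_j)` has maximally unipotent monodromy at `z = 0` and underlies an irreducible
variation of Hodge structure of rank `2m` and of weight `2m - 1` with all Hodge numbers `h^{p,q} = 1` on the projective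
line minus three points; it is defined over `ℚ` if the set of the `exp (2 π i β_j)^{±1}` with multiplicities is Galois
stable. For `m = 2` and `β = (1/5, 2/5)` it is the variation of the mirror quintic. In coordinates with
respect to the Frobenius basis `f_0, …, f_{2m-1}` of solutions the step `F^{2m-1-i}` of the Hodge filtration is spanned
by the rows `(θ^a f_0, …, θ^a f_{2m-1})`, `a ≤ i`. The integral structure is given by an invertible matrix `C`, with
periods of the limiting mixed Hodge structure as entries. We only use that the logarithm of the monodromy at `z = 0` and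
(up to a factor) the intersection form are rational. We prove that the algebraic points `z = 1 / ξ` near `0`, of
bounded degree and of height polynomial in `|ξ|`, are not CM points, and deduce with Northcott's theorem that only for
finitely many algebraic integers `ξ` of bounded degree all fibres at the points `1 / ξ'` of the unit disc, `ξ'`
conjugate to `ξ`, have complex multiplication.
-/

set_option autoImplicit false

open PowerSeries

namespace Pool.Agent.Results.MP_2794d1_ag.HypergeometricAlgebraicCM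

/-- the power series `x + ε` in the variable `ε` -/
noncomputable def shift (x : ℚ) : PowerSeries ℚ := C x + X

/-- `a_k(ε) = ∏_{a < k} ∏_j (a + ε + β_j) (a + ε + 1 - β_j) / (a + 1 + ε)^2`. The series `∑_k a_k(ε) z^(k + ε)` satisfies
`(θ^n - z ∏_j (θ + β_j) (θ + 1 - β_j)) f = ε^n z^ε`, `n = 2m`, hence its coefficients `f_j` at `ε^j` with `j < n` are
solutions of the homogeneous equation. -/
noncomputable def frob {m : ℕ} (β : Fin m → ℚ) (k : ℕ) : PowerSeries ℚ :=
  ∏ a ∈ Finset.range k, ∏ j, (shift (a + β j) * shift (a + 1 - β j) * ((shift (a + 1))⁻¹) ^ 2)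

/-- The row `((θ^i f_j)(1 / ξ))_j`, where `f_j(z)` is the coefficient of `ε^j` in the series `∑_k a_k(ε) z^(k + ε)`,
`z^ε = ∑_a (log z)^a ε^a / a!`, with the value `-l` of `log z`, where `exp l = ξ`. -/
noncomputable def per {m : ℕ} (β : Fin m → ℚ) (ξ l : ℂ) (i : ℕ) : Fin (2 * m) → ℂ := fun j =>
  ∑ a ∈ Finset.range ((j : ℕ) + 1), (-l) ^ a / (a.factorial : ℂ) *
    ∑' k : ℕ, ((coeff ((j : ℕ) - a) (shift k ^ i * frob β k) : ℚ) : ℂ) * (1 / ξ) ^ k

/-- The nilpotent matrix: `exp (2 π i N)` is the local monodromy at `z = 0` in the basis `f_0, …, f_{n-1}`. -/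
def N (n : ℕ) : Matrix (Fin n) (Fin n) ℂ := Matrix.of fun i j => if (j : ℕ) = i + 1 then 1 else 0

/-- the matrix of the flat alternating form in the Frobenius basis -/
def S (n : ℕ) : Matrix (Fin n) (Fin n) ℂ := Matrix.of fun i j => if (i : ℕ) + j + 1 = n then (-1) ^ (i : ℕ) else 0

/-- The base change `C` from the Frobenius basis is a polarised rational structure: the logarithm `2 π i C⁻¹ N C` of the
local monodromy is rational and the form `Cᵀ S C` is proportional to a rational one. -/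
structure RationalStructure {n : ℕ} (C : Matrix (Fin n) (Fin n) ℂ) : Prop where
  det : C.det ≠ 0
  log : ∃ M : Matrix (Fin n) (Fin n) ℚ, C * M.map (fun x : ℚ => (x : ℂ)) = (2 * (Real.pi : ℂ) * Complex.I) • (N n * C)
  form : ∃ (Q : Matrix (Fin n) (Fin n) ℚ) (κ : ℂ), C.transpose * S n * C = κ • Q.map (fun x : ℚ => (x : ℂ))

/-- The step `F^p` of the Hodge filtration at the point `z = 1 / ξ` in the rational coordinates. -/
noncomputable def F {m : ℕ} (β : Fin m → ℚ) (ξ l : ℂ) (C : Matrix (Fin (2 * m)) (Fin (2 * m)) ℂ) (p : ℕ) :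
    Submodule ℂ (Fin (2 * m) → ℂ) :=
  Submodule.span ℂ {v | ∃ i : ℕ, i + p < 2 * m ∧ v = Matrix.vecMul (per β ξ l i) C}

/-- a subspace spanned by vectors with coordinates in `K` -/
def DefinedOver {n : ℕ} (K : IntermediateField ℚ ℂ) (W : Submodule ℂ (Fin n → ℂ)) : Prop :=
  ∃ s : Set (Fin n → K), W = Submodule.span ℂ ((fun x i => ((x i : K) : ℂ)) '' s)

/-- Complex multiplication: there is a rational endomorphism with separable characteristic polynomial which preserves the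
filtration, that is, the algebra of endomorphisms of the Hodge structure contains a commutative semisimple algebra of the
maximal dimension. -/
def HasCM {n : ℕ} (F : ℕ → Submodule ℂ (Fin n → ℂ)) : Prop :=
  ∃ a : Matrix (Fin n) (Fin n) ℚ, a.charpoly.Separable ∧
    ∀ p, ∀ v ∈ F p, Matrix.vecMul v (a.map (fun x : ℚ => (x : ℂ))) ∈ F p

/-- `ξ` is a root of a nonzero integral polynomial of degree at most `g` with coefficients of size at most `|ξ|^A` -/
def Height (g A : ℕ) (ξ : ℂ) : Prop :=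
  ∃ p : Polynomial ℤ, p ≠ 0 ∧ p.natDegree ≤ g ∧ (∀ j, |(p.coeff j : ℝ)| ≤ ‖ξ‖ ^ A) ∧ Polynomial.aeval ξ p = 0

theorem frob_eq {m : ℕ} (β : Fin m → ℚ) (k : ℕ) : frob β k = Pool.Agent.Y118.CM.fa β k := rfl

theorem per_eq {m : ℕ} (β : Fin m → ℚ) (ξ l : ℂ) (i : ℕ) : per β ξ l i = Pool.Agent.Y119.HA.perx β ξ l i := rfl

theorem N_eq (n : ℕ) : N n = Pool.Agent.Y119.HY.cm (Pool.Agent.Y119.HY.Am n) := by
  ext i j
  rw [Pool.Agent.Y119.HY.cm_apply]
  unfold N Pool.Agent.Y119.HY.Am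
  rw [Matrix.of_apply, Matrix.of_apply]
  split_ifs <;> simp

theorem S_eq (n : ℕ) : S n = Pool.Agent.Y119.HY.cm (Pool.Agent.Y118.CM.J0 n) := by
  ext i j
  rw [Pool.Agent.Y119.HY.cm_apply]
  unfold S Pool.Agent.Y118.CM.J0
  rw [Matrix.of_apply, Matrix.of_apply]
  split_ifs <;> simp

theorem map_eq {n : ℕ} (M : Matrix (Fin n) (Fin n) ℚ) : M.map (fun x : ℚ => (x : ℂ)) = Pool.Agent.Y119.HY.cm M := by
  ext i j
  rw [Pool.Agent.Y119.HY.cm_apply, Matrix.map_apply]

theorem F_top {m : ℕ} (hm : 1 ≤ m) (β : Fin m → ℚ) (ξ l : ℂ) (C : Matrix (Fin (2 * m)) (Fin (2 * m)) ℂ) :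
    F β ξ l C (2 * m - 1) = Submodule.span ℂ {Matrix.vecMul (per β ξ l 0) C} := by
  unfold F
  congr 1
  ext v
  constructor
  · rintro ⟨i, hi, rfl⟩
    rw [show i = 0 by omega]
    rfl
  · rintro rfl
    exact ⟨0, by omega, rfl⟩

theorem F_sec {m : ℕ} (hm : 1 ≤ m) (β : Fin m → ℚ) (ξ l : ℂ) (C : Matrix (Fin (2 * m)) (Fin (2 * m)) ℂ) :
    F β ξ l C (2 * m - 2) = Submodule.span ℂ {Matrix.vecMul (per β ξ l 0) C, Matrix.vecMul (per β ξ l 1) C} := by
  unfold F
  congr 1
  ext v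
  constructor
  · rintro ⟨i, hi, rfl⟩
    rcases (by omega : i = 0 ∨ i = 1) with rfl | rfl
    · exact Or.inl rfl
    · exact Or.inr rfl
  · rintro (rfl | rfl)
    · exact ⟨0, by omega, rfl⟩
    · exact ⟨1, by omega, rfl⟩

/-- the step `F^p` as the span of the first `2m - p` rows -/
theorem F_step {m : ℕ} (β : Fin m → ℚ) (ξ l : ℂ) (C : Matrix (Fin (2 * m)) (Fin (2 * m)) ℂ) (p : ℕ) :
    F β ξ l C p = Submodule.span ℂ (Set.range fun i : Fin (2 * m - p) => Matrix.vecMul (Pool.Agent.Y119.HA.perx β ξ l i) C) := by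
  unfold F
  congr 1
  ext v
  constructor
  · rintro ⟨i, hi, rfl⟩
    exact ⟨⟨i, by omega⟩, rfl⟩
  · rintro ⟨i, rfl⟩
    have := i.2
    exact ⟨i, by omega, rfl⟩

/-- from subspaces defined over `K` to vectors -/
theorem vectors {n : ℕ} (K : IntermediateField ℚ ℂ) {v w : Fin n → ℂ} (h1 : DefinedOver K (Submodule.span ℂ {v}))
    (h2 : DefinedOver K (Submodule.span ℂ {v, w})) :
    ∃ (x0 x1 : Fin n → K) (c c' c'' : ℂ), v = (fun i => c * (x0 i : ℂ)) ∧ w = fun i => c' * (x0 i : ℂ) + c'' * (x1 i : ℂ) := by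
  obtain ⟨s, hs⟩ := h1
  obtain ⟨u, hu⟩ := h2
  -- the first vector
  have hx0 : ∃ (x0 : Fin n → K) (c : ℂ), v = (fun i => c * (x0 i : ℂ)) ∧ (v ≠ 0 → c ≠ 0) := by
    by_cases hv : v = 0
    · exact ⟨0, 0, by rw [hv]; funext i; simp, fun h => absurd hv h⟩
    · have h3 : ∃ x ∈ s, (fun i => ((x i : K) : ℂ)) ≠ 0 := by
        by_contra hcon
        push Not at hcon
        apply hv
        have h4 : v ∈ Submodule.span ℂ ((fun (x : Fin n → K) i => ((x i : K) : ℂ)) '' s) := by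
          rw [← hs]
          exact Submodule.mem_span_singleton_self v
        have h5 : Submodule.span ℂ ((fun (x : Fin n → K) i => ((x i : K) : ℂ)) '' s) = ⊥ := by
          rw [Submodule.span_eq_bot]
          rintro _ ⟨x, hx, rfl⟩
          exact hcon x hx
        rw [h5] at h4
        exact (Submodule.mem_bot ℂ).1 h4
      obtain ⟨x, hx, hx0⟩ := h3
      have h6 : (fun i => ((x i : K) : ℂ)) ∈ Submodule.span ℂ {v} := by
        rw [hs]
        exact Submodule.subset_span ⟨x, hx, rfl⟩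
      obtain ⟨a, ha⟩ := Submodule.mem_span_singleton.1 h6
      have ha0 : a ≠ 0 := by
        rintro rfl
        rw [zero_smul] at ha
        exact hx0 ha.symm
      refine ⟨x, a⁻¹, ?_, fun _ => inv_ne_zero ha0⟩
      funext i
      have h7 := congrFun ha i
      simp only [Pi.smul_apply, smul_eq_mul] at h7
      rw [← h7, ← mul_assoc, inv_mul_cancel₀ ha0, one_mul]
  obtain ⟨x0, c, hv, hc⟩ := hx0
  by_cases hw : w ∈ Submodule.span ℂ {v}
  · obtain ⟨a, ha⟩ := Submodule.mem_span_singleton.1 hw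
    refine ⟨x0, 0, c, a * c, 0, hv, ?_⟩
    rw [← ha, hv]
    funext i
    simp only [Pi.smul_apply, smul_eq_mul, Pi.zero_apply, ZeroMemClass.coe_zero]
    ring
  · have h3 : ∃ x ∈ u, (fun i => ((x i : K) : ℂ)) ∉ Submodule.span ℂ {v} := by
      by_contra hcon
      push Not at hcon
      apply hw
      have h4 : w ∈ Submodule.span ℂ ((fun (x : Fin n → K) i => ((x i : K) : ℂ)) '' u) := by
        rw [← hu]
        exact Submodule.subset_span (Or.inr rfl)
      refine (Submodule.span_le.2 ?_) h4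
      rintro _ ⟨x, hx, rfl⟩
      exact hcon x hx
    obtain ⟨x, hx, hxv⟩ := h3
    have h6 : (fun i => ((x i : K) : ℂ)) ∈ Submodule.span ℂ {v, w} := by
      rw [hu]
      exact Submodule.subset_span ⟨x, hx, rfl⟩
    obtain ⟨a, b, hab⟩ := Submodule.mem_span_pair.1 h6
    have hb : b ≠ 0 := by
      rintro rfl
      rw [zero_smul, add_zero] at hab
      exact hxv (Submodule.mem_span_singleton.2 ⟨a, hab⟩)
    refine ⟨x0, x, c, -(b⁻¹ * a * c), b⁻¹, hv, ?_⟩
    funext i
    have h7 := congrFun hab i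
    have h8 := congrFun hv i
    simp only [Pi.smul_apply, Pi.add_apply, smul_eq_mul] at h7 h8
    rw [← h7, h8]
    field_simp
    ring

/-- Let `m ≥ 2`, let `β_1, …, β_m` be rational numbers in `(0, 1)` and `F^•` the Hodge filtration of the hypergeometric
variation of Hodge structure `θ^(2m) - z ∏_j (θ + β_j) (θ + 1 - β_j)`. Then: rational structures exist; for all `g`, `A`
and `D` there is `E` such that for all algebraic numbers `ξ` of degree `≤ g` and height bounded by a power of `|ξ|` (with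
the exponent `A`), `|ξ| ≥ E`, all logarithms `l` of `ξ` and all polarised rational structures: the steps `F^{2m-1}` and
`F^{2m-2}` at the point `z = 1 / ξ` are not both defined over a number field of degree at most `D`, for `m ≥ 3` no step
`F^p` with `m ≤ p < 2m` is defined over a number field of degree at most `D`, and the point does not have complex
multiplication; finally, for all `g` and `D` there are only finitely many algebraic integers `ξ` of degree `≤ g` such
that for every conjugate `ξ'` of absolute value greater than `1` the fibre at `1 / ξ'` has, for some logarithm and some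
polarised rational structure, complex multiplication or the two steps `F^{2m-1}` and `F^{2m-2}` defined over a number
field of degree at most `D`. -/
theorem result {m : ℕ} (hm : 2 ≤ m) (β : Fin m → ℚ) (hβ : ∀ j, 0 < β j ∧ β j < 1) :
    (∃ C : Matrix (Fin (2 * m)) (Fin (2 * m)) ℂ, RationalStructure C) ∧
    (∀ g A D : ℕ, ∃ E : ℕ, ∀ ξ l : ℂ, Height g A ξ → (E : ℝ) ≤ ‖ξ‖ → Complex.exp l = ξ →
      ∀ C : Matrix (Fin (2 * m)) (Fin (2 * m)) ℂ, RationalStructure C →
      (∀ K : IntermediateField ℚ ℂ, FiniteDimensional ℚ K → Module.finrank ℚ K ≤ D →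
        ¬ (DefinedOver K (F β ξ l C (2 * m - 1)) ∧ DefinedOver K (F β ξ l C (2 * m - 2))) ∧
        (3 ≤ m → ∀ p : ℕ, m ≤ p → p < 2 * m → ¬ DefinedOver K (F β ξ l C p))) ∧
      ¬ HasCM (F β ξ l C)) ∧
    ∀ g D : ℕ, {ξ : ℂ | IsIntegral ℤ ξ ∧ (minpoly ℚ ξ).natDegree ≤ g ∧
      ∀ ξ' : ℂ, Polynomial.aeval ξ' (minpoly ℚ ξ) = 0 → 1 < ‖ξ'‖ →
        ∃ (l : ℂ) (C : Matrix (Fin (2 * m)) (Fin (2 * m)) ℂ), Complex.exp l = ξ' ∧ RationalStructure C ∧
          (HasCM (F β ξ' l C) ∨ ∃ K : IntermediateField ℚ ℂ, FiniteDimensional ℚ K ∧ Module.finrank ℚ K ≤ D ∧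
            DefinedOver K (F β ξ' l C (2 * m - 1)) ∧ DefinedOver K (F β ξ' l C (2 * m - 2)))}.Finite := by
  have hβ' : ∀ j, ∀ a : ℤ, β j ≠ a := by
    intro j a h
    have h1 := hβ j
    rw [h] at h1
    have h2 : (0 : ℤ) < a := by exact_mod_cast h1.1
    have h3 : a < (1 : ℤ) := by exact_mod_cast h1.2
    omega
  have hpi : (2 * (Real.pi : ℂ) * Complex.I) ≠ 0 := Complex.two_pi_I_ne_zero
  -- vectors
  have key : ∀ g A D : ℕ, ∃ t0 : ℕ, ∀ ξ l : ℂ, (t0 : ℝ) ≤ ‖ξ‖ → Height g A ξ →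
      ∀ C : Matrix (Fin (2 * m)) (Fin (2 * m)) ℂ, RationalStructure C →
      ∀ K : IntermediateField ℚ ℂ, FiniteDimensional ℚ K → Module.finrank ℚ K ≤ D →
      ∀ (x0 x1 : Fin (2 * m) → K) (c c' c'' : ℂ), Matrix.vecMul (per β ξ l 0) C = (fun i => c * (x0 i : ℂ)) →
      Matrix.vecMul (per β ξ l 1) C = (fun i => c' * (x0 i : ℂ) + c'' * (x1 i : ℂ)) → False := by
    intro g A D
    obtain ⟨t0, -, ht0⟩ := Pool.Agent.Y119.HA.no_flag_cyx hm hβ' g A D
    refine ⟨t0, fun ξ l hξ hht C hC K hK hKD x0 x1 c c' c'' e0 e1 => ?_⟩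
    obtain ⟨hdet, ⟨M, hM⟩, Q, κ, hQ⟩ := hC
    rw [map_eq, N_eq] at hM
    rw [map_eq, S_eq] at hQ
    exact ht0 ξ l hξ hht K hK hKD C M Q _ κ hdet hpi hM hQ x0 x1 c c' c'' e0 e1
  -- flags
  have flag : ∀ g A D : ℕ, ∃ t0 : ℕ, ∀ ξ l : ℂ, (t0 : ℝ) ≤ ‖ξ‖ → Height g A ξ →
      ∀ C : Matrix (Fin (2 * m)) (Fin (2 * m)) ℂ, RationalStructure C →
      ∀ K : IntermediateField ℚ ℂ, FiniteDimensional ℚ K → Module.finrank ℚ K ≤ D →
        ¬ (DefinedOver K (F β ξ l C (2 * m - 1)) ∧ DefinedOver K (F β ξ l C (2 * m - 2))) := by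
    intro g A D
    obtain ⟨t0, ht0⟩ := key g A D
    refine ⟨t0, fun ξ l hξ hht C hC K hK hKD hF => ?_⟩
    rw [F_top (by omega), F_sec (by omega)] at hF
    obtain ⟨x0, x1, c, c', c'', h1, h2⟩ := vectors K hF.1 hF.2
    exact ht0 ξ l hξ hht C hC K hK hKD x0 x1 c c' c'' h1 h2
  -- complex multiplication
  have nocm : ∀ g A : ℕ, ∃ t0 : ℕ, ∀ ξ l : ℂ, (t0 : ℝ) ≤ ‖ξ‖ → Height g A ξ →
      ∀ C : Matrix (Fin (2 * m)) (Fin (2 * m)) ℂ, RationalStructure C → ¬ HasCM (F β ξ l C) := by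
    intro g A
    obtain ⟨t0, ht0⟩ := key g A ((2 * m) ^ 2)
    refine ⟨t0, fun ξ l hξ hht C hC hcm => ?_⟩
    obtain ⟨a, ha, hF⟩ := hcm
    have e0 : Matrix.vecMul (Matrix.vecMul (per β ξ l 0) C) (a.map (fun x : ℚ => (x : ℂ))) ∈
        Submodule.span ℂ {Matrix.vecMul (per β ξ l 0) C} := by
      rw [← F_top (by omega)]
      refine hF _ _ ?_
      rw [F_top (by omega)]
      exact Submodule.mem_span_singleton_self _
    have e1 : Matrix.vecMul (Matrix.vecMul (per β ξ l 1) C) (a.map (fun x : ℚ => (x : ℂ))) ∈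
        Submodule.span ℂ {Matrix.vecMul (per β ξ l 0) C, Matrix.vecMul (per β ξ l 1) C} := by
      rw [← F_sec (by omega)]
      refine hF _ _ ?_
      rw [F_sec (by omega)]
      exact Submodule.subset_span (Or.inr rfl)
    obtain ⟨c0, hc0⟩ := Submodule.mem_span_singleton.1 e0
    obtain ⟨c1, c2, hc1⟩ := Submodule.mem_span_pair.1 e1
    rw [map_eq] at hc0 hc1
    obtain ⟨K, hK, hKD, x0, x1, c, c', c'', h1, h2⟩ := Pool.Agent.Y118.CM.cm_flag (by omega) a ha hc0.symm hc1.symm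
    exact ht0 ξ l hξ hht C hC K hK hKD x0 x1 c c' c'' h1 h2
  refine ⟨?_, ?_, ?_⟩
  · obtain ⟨C, h1, ⟨M, h2⟩, Q, κ, h3⟩ := Pool.Agent.Y118.CM.ex_rat (2 * m) hpi
    refine ⟨C, h1, ⟨M, ?_⟩, Q, κ, ?_⟩
    · rw [map_eq, N_eq]
      exact h2
    · rw [map_eq, S_eq]
      exact h3
  · intro g A D
    obtain ⟨t1, h1⟩ := flag g A D
    obtain ⟨t2, h2⟩ := nocm g A
    have h3 : ∃ t3 : ℕ, 3 ≤ m → ∀ ξ l : ℂ, (t3 : ℝ) ≤ ‖ξ‖ → Height g A ξ →
        ∀ C : Matrix (Fin (2 * m)) (Fin (2 * m)) ℂ, RationalStructure C →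
        ∀ K : IntermediateField ℚ ℂ, FiniteDimensional ℚ K → Module.finrank ℚ K ≤ D →
        ∀ p : ℕ, m ≤ p → p < 2 * m → ¬ DefinedOver K (F β ξ l C p) := by
      by_cases hm3 : 3 ≤ m
      · obtain ⟨t3, -, ht3⟩ := Pool.Agent.Y119.HA.step_x hm3 hβ' g A D
        refine ⟨t3, fun _ ξ l hξ hht C hC K hK hKD p hp1 hp2 hdef => ?_⟩
        obtain ⟨hdet, ⟨M, hM⟩, Q, κ, hQ⟩ := hC
        rw [map_eq, N_eq] at hM
        rw [map_eq, S_eq] at hQ
        obtain ⟨T, hT⟩ := hdef
        rw [F_step] at hT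
        exact ht3 ξ l hξ hht K hK hKD C M Q _ κ hdet hpi hM hQ (2 * m - p) (by omega) (by omega) ⟨T, hT⟩
      · exact ⟨0, fun h => absurd h hm3⟩
    obtain ⟨t3, h3⟩ := h3
    refine ⟨max t1 (max t2 t3), fun ξ l hht hξ _ C hC => ?_⟩
    have k1 : (t1 : ℝ) ≤ ‖ξ‖ := le_trans (by exact_mod_cast le_max_left t1 (max t2 t3)) hξ
    have k2 : (t2 : ℝ) ≤ ‖ξ‖ := le_trans (by exact_mod_cast le_trans (le_max_left t2 t3) (le_max_right t1 (max t2 t3))) hξ
    have k3 : (t3 : ℝ) ≤ ‖ξ‖ := le_trans (by exact_mod_cast le_trans (le_max_right t2 t3) (le_max_right t1 (max t2 t3))) hξ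
    exact ⟨fun K hK hKD => ⟨h1 ξ l k1 hht C hC K hK hKD, fun hm3 => h3 hm3 ξ l k3 hht C hC K hK hKD⟩, h2 ξ l k2 hht C hC⟩
  · intro g D
    obtain ⟨t1, h1⟩ := flag g (2 * g) D
    obtain ⟨t2, h2⟩ := nocm g (2 * g)
    refine Set.Finite.subset (Pool.Agent.Y119.HA.finite_conj g (max t1 t2) (fun ξ => ∀ (l : ℂ)
      (C : Matrix (Fin (2 * m)) (Fin (2 * m)) ℂ), RationalStructure C → ¬ HasCM (F β ξ l C) ∧
        ∀ K : IntermediateField ℚ ℂ, FiniteDimensional ℚ K → Module.finrank ℚ K ≤ D →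
        ¬ (DefinedOver K (F β ξ l C (2 * m - 1)) ∧ DefinedOver K (F β ξ l C (2 * m - 2)))) ?_) ?_
    · intro ξ hξ hht l C hC
      have k1 : (t1 : ℝ) ≤ ‖ξ‖ := le_trans (by exact_mod_cast le_max_left t1 t2) hξ
      have k2 : (t2 : ℝ) ≤ ‖ξ‖ := le_trans (by exact_mod_cast le_max_right t1 t2) hξ
      exact ⟨h2 ξ l k2 hht C hC, fun K hK hKD => h1 ξ l k1 hht C hC K hK hKD⟩
    · rintro ξ ⟨hint, hdeg, hall⟩
      refine ⟨hint, hdeg, fun ξ' hr h1' hP => ?_⟩
      obtain ⟨l, C, -, hC, hcm | ⟨K, hK, hKD, hF1, hF2⟩⟩ := hall ξ' hr h1'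
      · exact (hP l C hC).1 hcm
      · exact (hP l C hC).2 K hK hKD ⟨hF1, hF2⟩

end Pool.Agent.Results.MP_2794d1_ag.HypergeometricAlgebraicCM
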