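import Pool.Agent.Y118.HV.Mt

/-!
# Mumford–Tate domains and CM points of variations of Calabi–Yau type at the points `1 / t`

Let `𝒱` be a polarised variation of Hodge structure of rank `2m ≥ 4` and weight `2m - 1` with all Hodge numbers
`h^{p,q} = 1` over an open part of the projective line, which comes from a family of varieties over `ℚ(x)`, such that
`x = 0` is a point with maximally unipotent monodromy and such that the monodromy group (equivalently, the differential
Galois group) is Zariski dense in `Sp(2m)`. For `m = 2` these are the families of Calabi–Yau threefolds with `h^{2,1} = 1`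
(or motives with these Hodge numbers) with a large complex structure limit and Zariski dense monodromy. The generic
Mumford–Tate domain is the period domain, of dimension `m²`, and the generic Hodge datum is not a Shimura datum, so the
André–Oort conjecture for variations of Hodge structure predicts that there are only finitely many CM points.

With respect to a basis of sections over `ℚ(x)` adapted to the Hodge filtration and to the basis of flat sections for
which the local monodromy is `exp (2 π i N)`, `N` the standard nilpotent matrix, the period matrix is `H(x) x^N` with a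
matrix `H` of G-functions with rational coefficients; the flat polarisation is given by a rational matrix `S` and its
matrix with respect to the algebraic basis is `H S Hᵀ = B / p` with polynomials `B`, `p`. The rational structure is given by
an invertible matrix `C` (with `ζ(3) / (2 π i)^3` and similar periods as entries).

We prove that there is `t₀` such that for all integers `t ≥ t₀` and all rational structures the Mumford–Tate domain of the
Hodge structure at the point `x = 1 / t` has codimension at most `m + 1` in the period domain, that is, its dimension is at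
least `m² - m - 1 ≥ 1`, and that the Lie algebra of the Mumford–Tate group is not commutative: `1 / t` is not a CM point.
-/

set_option autoImplicit false

open PowerSeries

namespace Pool.Agent.Results.MP_2794d1_ag.MumfordTateDimension

/-- an integer polynomial as a power series with rational coefficients -/
noncomputable def toQ (P : Polynomial ℤ) : PowerSeries ℚ := ((P.map (Int.castRingHom ℚ) : Polynomial ℚ) : PowerSeries ℚ)

/-- the power series `P(u^e)` -/
noncomputable def atPow (e : ℕ) (P : Polynomial ℤ) : PowerSeries ℂ :=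
  ((Polynomial.expand ℂ e (P.map (Int.castRingHom ℂ)) : Polynomial ℂ) : PowerSeries ℂ)

/-- the matrices `G_s` over `ℤ[x]` with `T^s y^(s) = G_s y` for all solutions `y` of `T y' = A y` -/
noncomputable def iter {r : ℕ} (T : Polynomial ℤ) (A : Fin r → Fin r → Polynomial ℤ) : ℕ → Fin r → Fin r → Polynomial ℤ
  | 0 => fun i j => if i = j then 1 else 0
  | s + 1 => fun i j => T * Polynomial.derivative (iter T A s i j) + ∑ l, iter T A s i l * A l j -
      (s : Polynomial ℤ) * (Polynomial.derivative T * iter T A s i j)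

/-- The system `T y' = A y` has a fundamental matrix of solutions of the form `u^(-M) ∑_n Φ_n(u) (log u)^n` with
`u^e = x` and convergent power series `Φ_n`: the point `0` is an ordinary point or a regular singularity with rational
exponents. -/
def QuasiUnipotent {r : ℕ} (T : Polynomial ℤ) (A : Fin r → Fin r → Polynomial ℤ) : Prop :=
  ∃ (e M : ℕ) (K : ℝ) (Φ : Matrix (Fin r) (Fin r) (Polynomial (PowerSeries ℂ))), 1 ≤ e ∧ Φ.det ≠ 0 ∧
    (∀ i j n m, ‖coeff m ((Φ i j).coeff n)‖ ≤ K ^ (m + 1)) ∧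
    ∀ i j n, atPow e T * (X * PowerSeries.derivative ℂ ((Φ i j).coeff n) +
        ((n : PowerSeries ℂ) + 1) * (Φ i j).coeff (n + 1) - (M : PowerSeries ℂ) * (Φ i j).coeff n) =
      (e : PowerSeries ℂ) * X ^ e * ∑ l, atPow e (A i l) * (Φ l j).coeff n

/-- `h_1, ..., h_r` are G-functions with rational coefficients which solve the differential system `T y' = A y`, with
the conditions of Siegel and Galochkin, and the system is regular with rational exponents at `0`. -/
structure GFamily {r : ℕ} (T : Polynomial ℤ) (A : Fin r → Fin r → Polynomial ℤ) (h : Fin r → PowerSeries ℚ) : Prop where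
  /-- the denominator is not zero -/
  T_ne : T ≠ 0
  /-- the differential equations -/
  ode : ∀ i, toQ T * PowerSeries.derivative ℚ (h i) = ∑ j, toQ (A i j) * h j
  /-- the coefficients have geometric growth -/
  size : ∃ C : ℝ, ∀ i m, |((coeff m (h i) : ℚ) : ℝ)| ≤ C ^ (m + 1)
  /-- the common denominators of the coefficients have geometric growth -/
  den : ∃ C : ℝ, ∀ m : ℕ, ∃ d : ℕ, 0 < d ∧ (d : ℝ) ≤ C ^ (m + 1) ∧ ∀ i, ∀ j ≤ m, ∃ a : ℤ, (d : ℚ) * coeff j (h i) = a
  /-- Galochkin's condition: the common denominators of the matrices `G_s / s!` have geometric growth -/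
  galochkin : ∃ C : ℝ, ∀ m : ℕ, ∃ d : ℕ, 0 < d ∧ (d : ℝ) ≤ C ^ (m + 1) ∧ ∀ s ≤ m, ∀ i j,
    ∃ H : Polynomial ℤ, (d : Polynomial ℤ) * iter T A s i j = (s.factorial : Polynomial ℤ) * H
  /-- the local exponents at `0` are rational and the singularity is regular -/
  regular : QuasiUnipotent T A

/-- the entries of a matrix -/
def entries {n : ℕ} (H : Matrix (Fin n) (Fin n) (PowerSeries ℚ)) : Fin (n * n) → PowerSeries ℚ := fun a =>
  H (finProdFinEquiv.symm a).1 (finProdFinEquiv.symm a).2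

/-- the nilpotent matrix of the local monodromy `exp (2 π i N)` at `x = 0` -/
def N (n : ℕ) : Matrix (Fin n) (Fin n) ℚ := Matrix.of fun i j => if (j : ℕ) = i + 1 then 1 else 0

/-- rational matrices as complex matrices -/
def toC {n : ℕ} (M : Matrix (Fin n) (Fin n) ℚ) : Matrix (Fin n) (Fin n) ℂ := M.map fun x : ℚ => (x : ℂ)

/-- `S` is the matrix of a flat alternating form, invariant under the local monodromy `exp (2 π i N)`; its matrix with
respect to the algebraic basis is `H S Hᵀ = B / p`, and the first `m` sections span isotropic subspaces. -/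
structure Polarised {m : ℕ} (H : Matrix (Fin (2 * m)) (Fin (2 * m)) (PowerSeries ℚ))
    (S : Matrix (Fin (2 * m)) (Fin (2 * m)) ℚ) (p : Polynomial ℚ)
    (B : Matrix (Fin (2 * m)) (Fin (2 * m)) (Polynomial ℚ)) : Prop where
  S_skew : S.transpose = -S
  S_det : S.det ≠ 0
  S_inv : N (2 * m) * S + S * (N (2 * m)).transpose = 0
  p_ne : p ≠ 0
  B_det : B.det ≠ 0
  form : (p : PowerSeries ℚ) • (H * S.map (PowerSeries.C (R := ℚ)) * H.transpose) = B.map fun f => (f : PowerSeries ℚ)
  isotropic : ∀ i j : Fin (2 * m), (i : ℕ) < m → (j : ℕ) < m → B i j = 0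

/-- the complex matrices `g` with `p(1/t) g S gᵀ = B(1/t)` -/
def formFibre {n : ℕ} (S : Matrix (Fin n) (Fin n) ℚ) (p : Polynomial ℚ) (B : Matrix (Fin n) (Fin n) (Polynomial ℚ))
    (t : ℕ) : Set (Matrix (Fin n) (Fin n) ℂ) :=
  {g | ((p.eval (1 / (t : ℚ)) : ℚ) : ℂ) • (g * toC S * g.transpose) = toC (B.map fun f => f.eval (1 / (t : ℚ)))}

/-- specialisation at `x = 1 / t` -/
noncomputable def spec (t : ℕ) : Polynomial ℚ →+* ℂ := (algebraMap ℚ ℂ).comp (Polynomial.evalRingHom (1 / (t : ℚ)))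

/-- The monodromy group is Zariski dense in the symplectic group: all polynomial relations `R(x, H(x)) = 0` over `ℚ[x]`
between the entries of `H` follow from `p H S Hᵀ = B`, that is, at all `x = 1 / t` with `p(x) ≠ 0`, `det B(x) ≠ 0` they
hold at all matrices `g` with `p(x) g S gᵀ = B(x)`. -/
def FullMonodromy {n : ℕ} (H : Matrix (Fin n) (Fin n) (PowerSeries ℚ)) (S : Matrix (Fin n) (Fin n) ℚ) (p : Polynomial ℚ)
    (B : Matrix (Fin n) (Fin n) (Polynomial ℚ)) : Prop :=
  ∀ R : MvPolynomial (Fin n × Fin n) (Polynomial ℚ), MvPolynomial.aeval (fun a : Fin n × Fin n => H a.1 a.2) R = 0 →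
    ∀ t : ℕ, p.eval (1 / (t : ℚ)) ≠ 0 → B.det.eval (1 / (t : ℚ)) ≠ 0 → ∀ g ∈ formFibre S p B t,
      MvPolynomial.eval₂ (spec t) (fun a => g a.1 a.2) R = 0

/-- the period matrix `H(x) x^N = H(x) exp (N log x)` at `x = 1 / t` -/
noncomputable def per {n : ℕ} (H : Matrix (Fin n) (Fin n) (PowerSeries ℚ)) (t : ℕ) : Matrix (Fin n) (Fin n) ℂ :=
  (Matrix.of fun i j => ((∑' k : ℕ, ((coeff k (H i j) : ℚ) : ℝ) * (1 / (t : ℝ)) ^ k : ℝ) : ℂ)) *
    ∑ l ∈ Finset.range n, ((-((Real.log t : ℝ) : ℂ)) ^ l / (l.factorial : ℂ)) • toC (N n) ^ l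

/-- The base change `C` from the flat basis to a rational basis is a rational structure with the polarisation `P`: the
logarithm `2 π i C⁻¹ N C` of the local monodromy is rational and the flat form is proportional to the rational form `P` on
rows, `(v C⁻¹) S (w C⁻¹)ᵀ = κ v P wᵀ`. -/
structure RationalStructure {n : ℕ} (S : Matrix (Fin n) (Fin n) ℚ) (C : Matrix (Fin n) (Fin n) ℂ)
    (P : Matrix (Fin n) (Fin n) ℚ) : Prop where
  det : C.det ≠ 0
  log : ∃ M : Matrix (Fin n) (Fin n) ℚ, C * toC M = (2 * (Real.pi : ℂ) * Complex.I) • (toC (N n) * C)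
  form : ∃ κ : ℂ, C⁻¹ * toC S * (C⁻¹).transpose = κ • toC P

/-- The step `F^q` of the Hodge filtration at the point `x = 1 / t` in the rational coordinates: the span of the rows
`i < 2m - q` of the period matrix if `q ≥ m`, and the orthogonal complement of `F^{2m-q}` if `q < m`. -/
noncomputable def F {m : ℕ} (H : Matrix (Fin (2 * m)) (Fin (2 * m)) (PowerSeries ℚ)) (t : ℕ)
    (C : Matrix (Fin (2 * m)) (Fin (2 * m)) ℂ) (P : Matrix (Fin (2 * m)) (Fin (2 * m)) ℚ) (q : ℕ) :
    Submodule ℂ (Fin (2 * m) → ℂ) :=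
  if m ≤ q then Submodule.span ℂ {v | ∃ i : Fin (2 * m), (i : ℕ) + q < 2 * m ∧ v = (per H t * C) i}
  else
    { carrier := {v | ∀ j : Fin (2 * m), (j : ℕ) < q → dotProduct v (Matrix.mulVec (toC P) ((per H t * C) j)) = 0}
      add_mem' := fun {a b} ha hb j hj => by rw [add_dotProduct, ha j hj, hb j hj, add_zero]
      zero_mem' := fun j _ => zero_dotProduct _
      smul_mem' := fun c a ha j hj => by rw [smul_dotProduct, ha j hj, smul_zero] }

/-- The filtration `F` and its complex conjugate are opposed, that is, they define a Hodge structure of weight `n - 1`: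
no non-zero vector `v` satisfies `v ∈ F^p` and `conj v ∈ F^{n-p}`. -/
def IsHodge {n : ℕ} (F : ℕ → Submodule ℂ (Fin n → ℂ)) : Prop := ∀ p ≤ n, ∀ v ∈ F p, star v ∈ F (n - p) → v = 0

/-- the value at the rows `x_1, …, x_d` of the multilinear form of degree `d` with rational coefficients `T` -/
noncomputable def value {n d : ℕ} (T : (Fin d → Fin n) → ℚ) (x : Fin d → Fin n → ℂ) : ℂ :=
  ∑ J : Fin d → Fin n, (T J : ℂ) * ∏ l, x l (J l)

/-- The rational multilinear form `T` of degree `d` on the Hodge structure `V = ℚ^n` of weight `n - 1` is a Hodge tensor,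
that is, a morphism of Hodge structures from the tensor power `V^{⊗d}` to `ℚ(-d(n-1)/2)`: it vanishes on
`F^{p_1} ⊗ ⋯ ⊗ F^{p_d}` if `p_1 + ⋯ + p_d > d (n - 1) / 2`. -/
def IsHodgeTensor {n d : ℕ} (F : ℕ → Submodule ℂ (Fin n → ℂ)) (T : (Fin d → Fin n) → ℚ) : Prop :=
  ∀ p : Fin d → ℕ, d * (n - 1) < 2 * ∑ l, p l → ∀ x : Fin d → Fin n → ℂ, (∀ l, x l ∈ F (p l)) → value T x = 0

theorem value_eq {n d : ℕ} (T : (Fin d → Fin n) → ℚ) (x : Fin d → Fin n → ℂ) :
    value T x = Pool.Agent.Y118.HX.evx x (Pool.Agent.Y118.HX.cmT T) := by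
  unfold value Pool.Agent.Y118.HX.evx Pool.Agent.Y118.HX.cmT
  exact Finset.sum_congr rfl fun J _ => mul_comm _ _

theorem ann_iff {n d : ℕ} (T : (Fin d → Fin n) → ℚ) (X : Matrix (Fin n) (Fin n) ℂ) :
    (∀ x : Fin d → Fin n → ℂ, ∑ l, value T (Function.update x l (Matrix.vecMul (x l) X)) = 0) ↔
      Pool.Agent.Y118.HX.act X (Pool.Agent.Y118.HX.cmT T) = 0 := by
  constructor
  · intro h
    funext I
    have h1 := h (fun l => (1 : Matrix (Fin n) (Fin n) ℂ) (I l))
    simp only [value_eq] at h1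
    rw [Pool.Agent.Y118.HX.evx_act, ← Pool.Agent.Y118.HX.ev_evx, Pool.Agent.Y118.HX.ev_one] at h1
    exact h1
  · intro h x
    simp only [value_eq]
    rw [Pool.Agent.Y118.HX.evx_act, h]
    unfold Pool.Agent.Y118.HX.evx
    simp

/-- The complexification of the Lie algebra of the special Mumford–Tate group (Hodge group) of the polarised Hodge
structure `F`, which is the stabiliser of all Hodge tensors: the matrices `X`, acting on rows from the right, such that
`∑_l T(x_1, …, x_l X, …, x_d) = 0` for all Hodge tensors `T` of all degrees `d` and all `x_1, …, x_d`. -/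
def lieMT {n : ℕ} (F : ℕ → Submodule ℂ (Fin n → ℂ)) : Submodule ℂ (Matrix (Fin n) (Fin n) ℂ) where
  carrier := {X | ∀ (d : ℕ) (T : (Fin d → Fin n) → ℚ), IsHodgeTensor F T → ∀ x : Fin d → Fin n → ℂ,
    ∑ l, value T (Function.update x l (Matrix.vecMul (x l) X)) = 0}
  add_mem' := fun {a b} ha hb d T hT => by
    rw [ann_iff, map_add, LinearMap.add_apply, (ann_iff T a).1 (ha d T hT), (ann_iff T b).1 (hb d T hT), add_zero]
  zero_mem' := fun d T _ => by rw [ann_iff, map_zero, LinearMap.zero_apply]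
  smul_mem' := fun c a ha d T hT => by
    rw [ann_iff, map_smul, LinearMap.smul_apply, (ann_iff T a).1 (ha d T hT), smul_zero]

/-- the matrices which preserve all steps of the Hodge filtration -/
def stab {n : ℕ} (F : ℕ → Submodule ℂ (Fin n → ℂ)) : Submodule ℂ (Matrix (Fin n) (Fin n) ℂ) where
  carrier := {X | ∀ q, ∀ v ∈ F q, Matrix.vecMul v X ∈ F q}
  add_mem' := fun {a b} ha hb q v hv => by
    rw [Matrix.vecMul_add]
    exact (F q).add_mem (ha q v hv) (hb q v hv)
  zero_mem' := fun q v _ => by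
    rw [Matrix.vecMul_zero]
    exact (F q).zero_mem
  smul_mem' := fun c a ha q v hv => by
    rw [Matrix.vecMul_smul]
    exact (F q).smul_mem c (ha q v hv)

theorem iter_eq {r : ℕ} (T : Polynomial ℤ) (A : Fin r → Fin r → Polynomial ℤ) (s : ℕ) :
    iter T A s = Pool.Agent.Y120.GH.itm T A s := by
  induction s with
  | zero => rfl
  | succ s ih =>
    funext i j
    rw [iter, Pool.Agent.Y120.GH.itm, ih]

theorem qu_eq {r : ℕ} {T : Polynomial ℤ} {A : Fin r → Fin r → Polynomial ℤ} (h : QuasiUnipotent T A) :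
    Pool.Agent.Y120.GH.QU0 T A := by
  obtain ⟨e, M, K, Φ, he, hdet, hc, heq⟩ := h
  have he0 : e ≠ 0 := by omega
  refine ⟨e, he0, M, K, Φ, hc, fun i j n => ?_, hdet⟩
  have h1 := heq i j n
  simp only [atPow] at h1
  rw [Pool.Agent.Y120.GH.expand_poly he0]
  simp only [Pool.Agent.Y120.GH.expand_poly he0]
  exact h1

theorem gal_eq {r : ℕ} {T : Polynomial ℤ} {A : Fin r → Fin r → Polynomial ℤ} {h : Fin r → PowerSeries ℚ}
    (hG : GFamily T A h) : ∃ C : ℝ, ∀ m, ∃ d : ℕ, 0 < d ∧ (d : ℝ) ≤ C ^ (m + 1) ∧ ∀ s ≤ m, ∀ i j, ∃ H : Polynomial ℤ,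
      (d : Polynomial ℤ) * Pool.Agent.Y120.GH.itm T A s i j = (s.factorial : Polynomial ℤ) * H := by
  obtain ⟨C, hC⟩ := hG.galochkin
  refine ⟨C, fun m => ?_⟩
  obtain ⟨d, h1, h2, h3⟩ := hC m
  refine ⟨d, h1, h2, fun s hs i' j' => ?_⟩
  rw [← iter_eq]
  exact h3 s hs i' j'

theorem map_eq {n : ℕ} (M : Matrix (Fin n) (Fin n) ℚ) : toC M = Pool.Agent.Y119.HY.cm M := by
  ext i j
  rw [Pool.Agent.Y119.HY.cm_apply]
  rfl

theorem per_eq {n : ℕ} (H : Matrix (Fin n) (Fin n) (PowerSeries ℚ)) (t : ℕ) (C : Matrix (Fin n) (Fin n) ℂ) :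
    per H t * C = Pool.Agent.Y118.HV.Vt H t C := by
  unfold per Pool.Agent.Y118.HV.Vt
  rw [map_eq, Matrix.mul_assoc]
  rfl

theorem F_eq {m : ℕ} (H : Matrix (Fin (2 * m)) (Fin (2 * m)) (PowerSeries ℚ)) (t : ℕ)
    (C : Matrix (Fin (2 * m)) (Fin (2 * m)) ℂ) (P : Matrix (Fin (2 * m)) (Fin (2 * m)) ℚ) (q : ℕ) :
    F H t C P q = Pool.Agent.Y118.HX.Fl (Pool.Agent.Y118.HV.vr (Pool.Agent.Y118.HV.Vt H t C))
      (Pool.Agent.Y119.HY.cm P) q := by
  by_cases hq : m ≤ q
  · rw [Pool.Agent.Y118.HX.Fl_hi hq]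
    unfold F
    rw [if_pos hq]
    congr 1
    ext v
    constructor
    · rintro ⟨i, hi, rfl⟩
      exact ⟨i, hi, by rw [per_eq, Pool.Agent.Y118.HV.vr_fin]⟩
    · rintro ⟨i, hi, rfl⟩
      exact ⟨⟨i, by omega⟩, hi, by rw [per_eq]; exact Pool.Agent.Y118.HV.vr_fin _ ⟨i, by omega⟩⟩
  · ext v
    rw [Pool.Agent.Y118.HX.mem_Fl_lo (not_le.1 hq)]
    unfold F
    rw [if_neg hq]
    show (∀ j : Fin (2 * m), (j : ℕ) < q → dotProduct v (Matrix.mulVec (toC P) ((per H t * C) j)) = 0) ↔ _
    rw [map_eq, per_eq]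
    constructor
    · intro h j hj
      have h1 := h ⟨j, by omega⟩ hj
      have h2 := Pool.Agent.Y118.HV.vr_fin (Pool.Agent.Y118.HV.Vt H t C) ⟨j, by omega⟩
      rw [← h2] at h1
      exact h1
    · intro h j hj
      have h1 := h j hj
      rw [Pool.Agent.Y118.HV.vr_fin] at h1
      exact h1

/-- from the form on rows to the dual form -/
theorem dual_of {m : ℕ} (hm : 1 ≤ m) {S : Matrix (Fin (2 * m)) (Fin (2 * m)) ℚ} (hS : S.det ≠ 0)
    {C : Matrix (Fin (2 * m)) (Fin (2 * m)) ℂ} {P : Matrix (Fin (2 * m)) (Fin (2 * m)) ℚ}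
    {κ : ℂ} (hC : C.det ≠ 0) (hP : C⁻¹ * toC S * (C⁻¹).transpose = κ • toC P) :
    P.det ≠ 0 ∧ C.transpose * Pool.Agent.Y119.HY.cm S⁻¹ * C = κ⁻¹ • Pool.Agent.Y119.HY.cm P⁻¹ := by
  rw [map_eq, map_eq] at hP
  have hSu : IsUnit S.det := isUnit_iff_ne_zero.2 hS
  have s2 : Pool.Agent.Y119.HY.cm S⁻¹ * Pool.Agent.Y119.HY.cm S = 1 := by
    rw [← Pool.Agent.Y119.HY.cm_mul, Matrix.nonsing_inv_mul _ hSu, Pool.Agent.Y119.HY.cm_one]
  have hu : IsUnit C.det := isUnit_iff_ne_zero.2 hC
  have e1 : C * C⁻¹ = 1 := Matrix.mul_nonsing_inv _ hu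
  have e2 : C.transpose * (C⁻¹).transpose = 1 := by
    rw [← Matrix.transpose_mul, Matrix.nonsing_inv_mul _ hu, Matrix.transpose_one]
  set X := C.transpose * Pool.Agent.Y119.HY.cm S⁻¹ * C with hX
  have h1 : X * (κ • Pool.Agent.Y119.HY.cm P) = 1 := by
    rw [← hP, hX]
    calc (C.transpose * Pool.Agent.Y119.HY.cm S⁻¹ * C) * (C⁻¹ * Pool.Agent.Y119.HY.cm S * (C⁻¹).transpose) =
          C.transpose * Pool.Agent.Y119.HY.cm S⁻¹ * (C * C⁻¹) * Pool.Agent.Y119.HY.cm S * (C⁻¹).transpose := by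
          simp only [Matrix.mul_assoc]
      _ = C.transpose * (Pool.Agent.Y119.HY.cm S⁻¹ * Pool.Agent.Y119.HY.cm S) * (C⁻¹).transpose := by
          rw [e1, Matrix.mul_one]
          simp only [Matrix.mul_assoc]
      _ = 1 := by rw [s2, Matrix.mul_one, e2]
  have hκ : κ ≠ 0 := by
    intro h0
    rw [h0, zero_smul, Matrix.mul_zero] at h1
    have h2 := congrFun (congrFun h1 ⟨0, by omega⟩) ⟨0, by omega⟩
    rw [Matrix.zero_apply, Matrix.one_apply_eq] at h2
    exact zero_ne_one h2
  have hPd : P.det ≠ 0 := by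
    intro h0
    have h2 : (κ • Pool.Agent.Y119.HY.cm P).det = 0 := by
      rw [Matrix.det_smul, Pool.Agent.Y118.HV.cm_det, h0, Rat.cast_zero, mul_zero]
    have h3 := congrArg Matrix.det h1
    rw [Matrix.det_mul, h2, mul_zero, Matrix.det_one] at h3
    exact zero_ne_one h3
  refine ⟨hPd, ?_⟩
  have hPu : IsUnit P.det := isUnit_iff_ne_zero.2 hPd
  have e3 : Pool.Agent.Y119.HY.cm P * Pool.Agent.Y119.HY.cm P⁻¹ = 1 := by
    rw [← Pool.Agent.Y119.HY.cm_mul, Matrix.mul_nonsing_inv _ hPu, Pool.Agent.Y119.HY.cm_one]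
  calc X = X * ((κ • Pool.Agent.Y119.HY.cm P) * (κ⁻¹ • Pool.Agent.Y119.HY.cm P⁻¹)) := by
        rw [Matrix.smul_mul, Matrix.mul_smul (Pool.Agent.Y119.HY.cm P), smul_smul, mul_inv_cancel₀ hκ, one_smul, e3,
          Matrix.mul_one]
    _ = κ⁻¹ • Pool.Agent.Y119.HY.cm P⁻¹ := by
        rw [← Matrix.mul_assoc, h1, Matrix.one_mul]

/-- the Lie algebras in the library -/
theorem lie_eq {m : ℕ} {F' G : ℕ → Submodule ℂ (Fin (2 * m) → ℂ)} (h : ∀ q, F' q = G q) :
    lieMT F' = Pool.Agent.Y118.HV.WF G ∧ stab F' = Pool.Agent.Y118.HV.St G := by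
  have hF : F' = G := funext h
  subst hF
  have hT : ∀ (d : ℕ) (T : (Fin d → Fin (2 * m)) → ℚ), IsHodgeTensor F' T ↔ Pool.Agent.Y118.HV.HT F' d T := by
    intro d T
    unfold IsHodgeTensor Pool.Agent.Y118.HV.HT
    simp only [value_eq]
  refine ⟨?_, rfl⟩
  ext X
  constructor
  · intro hX d T hTT
    exact (ann_iff T X).1 (hX d T ((hT d T).2 hTT))
  · intro hX d T hTT
    exact (ann_iff T X).2 (hX d T ((hT d T).1 hTT))

/-- Let `n = 2m ≥ 4` and let `H` be an `n × n` matrix of G-functions with rational coefficients, polarised by `S`, `p`, `B`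
and with full symplectic monodromy. Then there is `t₀` such that for all integers `t ≥ t₀` and all rational structures
`C` with polarisation `P` for which the filtration `F` at the point `1 / t` defines a Hodge structure, the complexified Lie
algebra `𝔤` of its Mumford–Tate group and its subalgebra `𝔭` of the elements which preserve the filtration satisfy
`m² + dim 𝔭 ≤ dim 𝔤 + (m + 1)`, that is, the codimension of the Mumford–Tate domain in the period domain is at most `m + 1`,
and `𝔤` is not commutative, that is, `1 / t` is not a CM point. -/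
theorem result {m : ℕ} (hm : 2 ≤ m) (T : Polynomial ℤ) (A : Fin (2 * m * (2 * m)) → Fin (2 * m * (2 * m)) → Polynomial ℤ)
    (H : Matrix (Fin (2 * m)) (Fin (2 * m)) (PowerSeries ℚ)) (hG : GFamily T A (entries H))
    (S : Matrix (Fin (2 * m)) (Fin (2 * m)) ℚ) (p : Polynomial ℚ) (B : Matrix (Fin (2 * m)) (Fin (2 * m)) (Polynomial ℚ))
    (hP : Polarised H S p B) (hM : FullMonodromy H S p B) :
    ∃ t₀ : ℕ, ∀ t : ℕ, t₀ ≤ t →
      ∀ (C : Matrix (Fin (2 * m)) (Fin (2 * m)) ℂ) (P : Matrix (Fin (2 * m)) (Fin (2 * m)) ℚ), RationalStructure S C P →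
        IsHodge (F H t C P) →
          m ^ 2 + Module.finrank ℂ (lieMT (F H t C P) ⊓ stab (F H t C P) : Submodule ℂ (Matrix (Fin (2 * m)) (Fin (2 * m)) ℂ)) ≤
            Module.finrank ℂ (lieMT (F H t C P)) + (m + 1) ∧
          ¬ ∀ X ∈ lieMT (F H t C P), ∀ Y ∈ lieMT (F H t C P), X * Y = Y * X := by
  have hpi : (2 * (Real.pi : ℂ) * Complex.I) ≠ 0 := Complex.two_pi_I_ne_zero
  obtain ⟨q', C', hGS⟩ := Pool.Agent.Y120.GH.gsys_of hG.ode hG.size hG.den (gal_eq hG)
  obtain ⟨t₀, hmain⟩ := Pool.Agent.Y118.HV.mt_large (H := H) hm hG.T_ne hG.ode hGS (qu_eq hG.regular)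
    hP.S_skew hP.S_det hP.p_ne hP.B_det hP.S_inv hP.isotropic hP.form (fun R hR t h1 h2 g hg => by
      refine hM R hR t h1 ?_ g ?_
      · rw [Pool.Agent.Y118.HV.bm_det] at h2
        exact h2
      · show _ • _ = _
        rw [map_eq, map_eq]
        exact hg)
  refine ⟨t₀, fun t h1 C P hC hF => ?_⟩
  obtain ⟨hdet, ⟨M, hMM⟩, κ, hPP⟩ := hC
  obtain ⟨hPd, hQ⟩ := dual_of (by omega) hP.S_det hdet hPP
  rw [map_eq, map_eq] at hMM
  have hPP : P⁻¹⁻¹ = P := Matrix.nonsing_inv_nonsing_inv _ (isUnit_iff_ne_zero.2 hPd)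
  have hSs : (Pool.Agent.Y119.HY.cm S⁻¹).transpose = -Pool.Agent.Y119.HY.cm S⁻¹ := by
    have h1 : (S⁻¹).transpose = -S⁻¹ := by
      rw [Matrix.transpose_nonsing_inv, hP.S_skew]
      refine Matrix.inv_eq_left_inv ?_
      rw [Matrix.neg_mul, Matrix.mul_neg, neg_neg, Matrix.nonsing_inv_mul _ (isUnit_iff_ne_zero.2 hP.S_det)]
    rw [← Pool.Agent.Y119.HY.cm_neg, ← h1]
    rfl
  obtain ⟨-, hQd, hsk⟩ := Pool.Agent.Y118.HV.kappa_neG hSs hP.S_det hdet hQ (by omega)
  have hFe : ∀ q, F H t C P q = Pool.Agent.Y118.HX.Fl (Pool.Agent.Y118.HV.vr (Pool.Agent.Y118.HV.Vt H t C))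
      (Pool.Agent.Y119.HY.cm P⁻¹⁻¹) q := fun q => by rw [hPP]; exact F_eq H t C P q
  have hj := hmain t h1 C M P⁻¹ _ _ hdet hpi hMM hQ (by
    intro q hq
    rw [eq_bot_iff]
    intro v hv
    rw [Submodule.mem_inf, Pool.Agent.Y118.HX.mem_cj, ← hFe, ← hFe] at hv
    rw [Submodule.mem_bot]
    exact hF q hq v hv.1 hv.2)
  obtain ⟨l1, l2⟩ := lie_eq hFe
  rw [l1, l2, sq]
  exact hj

end Pool.Agent.Results.MP_2794d1_ag.MumfordTateDimension
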